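import Pool.Agent.helper87.TR.Spec

/-!
# Row tr:HO (MP_3221a1_ag)
-/

set_option autoImplicit false

namespace Pool.Agent.helper87.TR

open Polynomial Finset Module FP97
open Pool.Agent.helper97.FP

/-- the combinatorial choice of `S` -/
theorem HO_S {h : ℕ} (n : Fin h → ℕ) (S0 : Finset (Fin h)) (t : ℕ)
    (ht : t ≤ (univ.filter fun k => n k = 2).card) :
    ∃ S : Finset (Fin h), (∀ k, n k ≠ 2 → (k ∈ S0 ↔ k ∈ S)) ∧ (S.filter fun k => n k = 2).card = t := by
  classical
  obtain ⟨U, hU, hUt⟩ := Finset.exists_subset_card_eq ht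
  refine ⟨(S0.filter fun k => n k ≠ 2) ∪ U, ?_, ?_⟩
  · intro k hk
    rw [Finset.mem_union, Finset.mem_filter]
    constructor
    · intro h1
      exact Or.inl ⟨h1, hk⟩
    · rintro (h1 | h1)
      · exact h1.1
      · have := hU h1
        rw [Finset.mem_filter] at this
        exact absurd this.2 hk
  · have h1 : ((S0.filter fun k => n k ≠ 2) ∪ U).filter (fun k => n k = 2) = U := by
      ext k
      rw [Finset.mem_filter, Finset.mem_union, Finset.mem_filter]
      constructor
      · rintro ⟨h1 | h1, h2⟩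
        · exact absurd h2 h1.2
        · exact h1
      · intro h1
        have := hU h1
        rw [Finset.mem_filter] at this
        exact ⟨Or.inr h1, this.2⟩
    rw [h1, hUt]

theorem HO_prod_ne {h : ℕ} {a : Fin h → ℂ} (ha : Function.Injective a) (L : Finset (Fin h))
    {k : Fin h} (hk : k ∉ L) : (∏ l ∈ L, (X - C (a l))).eval (a k) ≠ 0 := by
  rw [eval_prod, Finset.prod_ne_zero_iff]
  intro l hl
  rw [eval_sub, eval_X, eval_C, sub_ne_zero]
  intro h
  exact hk (by rw [ha h]; exact hl)

theorem HO (hT3 : T3_stmt) (hGM : GM_stmt) (hCK : CK_stmt) (hWN : WN_stmt) (hPH : PH_stmt) :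
    HO_stmt := by
  classical
  intro Z
  obtain ⟨h, a, B, ha, hB, hsum, hZ⟩ := exists_config Z
  obtain ⟨p, q, hpq, href⟩ := exists_ref ha B
  have hmain := fun i j hij => main_aff (B := B) ha hB hpq href i j hij
  obtain ⟨n, hn⟩ : ∃ n : Fin h → ℕ, n = fun k => (B k).card := ⟨_, rfl⟩
  obtain ⟨e, he⟩ : ∃ e : ℕ, e = max p.natDegree q.natDegree := ⟨_, rfl⟩
  obtain ⟨S0, hS0⟩ : ∃ S0 : Finset (Fin h), S0 = HS a B p q := ⟨_, rfl⟩
  rw [← he] at href
  rw [← hn, ← he, ← hS0] at hmain
  -- the single values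
  obtain ⟨β, hβ⟩ : ∃ β : Fin h → ℂ, ∀ k ∈ Sing B, B k = {β k} := by
    have h1 : ∀ k, ∃ b, k ∈ Sing B → B k = {b} := by
      intro k
      by_cases hk : k ∈ Sing B
      · rw [mem_Sing] at hk
        obtain ⟨b, hb⟩ := Finset.card_eq_one.mp hk
        exact ⟨b, fun _ => hb⟩
      · exact ⟨0, fun h => absurd h hk⟩
    choose β hβ using h1
    exact ⟨β, hβ⟩
  have hhit : ∀ k, k ∈ S0 ↔ Hit a B p q k := by
    intro k
    rw [hS0]
    exact mem_HS
  -- d
  have hfil : (Sing B).filter (fun k => q.eval (a k) ≠ β k * p.eval (a k)) =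
      univ.filter fun k => k ∉ S0 ∧ n k = 1 := by
    ext k
    rw [Finset.mem_filter, Finset.mem_filter]
    constructor
    · rintro ⟨h1, h2⟩
      refine ⟨Finset.mem_univ _, ?_, ?_⟩
      · rw [hhit, hit_single (hβ k h1)]
        exact h2
      · rw [hn]
        exact mem_Sing.1 h1
    · rintro ⟨-, h1, h2⟩
      rw [hn] at h2
      have h3 : k ∈ Sing B := mem_Sing.2 h2
      refine ⟨h3, ?_⟩
      rw [hhit, hit_single (hβ k h3)] at h1
      exact h1
  have hell : ell n = (Sing B).card := by
    rw [hn]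
    rfl
  have hkap : kap n = (KK B).card := by
    rw [hn]
    rfl
  have hSHc : (SH a B p q).card = (S0.filter fun k => n k = 1).card := by
    rw [SH_eq, hS0, hn]
  have hcount : (S0.filter fun k => n k = 1).card + (univ.filter fun k => k ∉ S0 ∧ n k = 1).card =
      ell n := by
    unfold ell
    rw [← Finset.card_filter_add_card_filter_not (s := univ.filter fun k => n k = 1)
      (fun k => k ∈ S0), Finset.filter_filter, Finset.filter_filter]
    congr 2
    · ext k
      simp only [Finset.mem_filter, Finset.mem_univ, true_and]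
      exact and_comm
    · ext k
      simp only [Finset.mem_filter, Finset.mem_univ, true_and]
      exact and_comm
  obtain ⟨d, hd⟩ : ∃ d : ℕ, d = dee n S0 e := ⟨_, rfl⟩
  have hd' : d = e + (univ.filter fun k => k ∉ S0 ∧ n k = 1).card := hd
  have h2d : 2 * d ≤ ell n := by
    rw [← hell, hSHc] at href
    omega
  obtain ⟨P2, Q2, hbas⟩ := hGM (Fin h) a β (Sing B) p q d ha.injOn hpq (by
    rw [hfil, ← he]
    exact hd') (by rw [← hell]; exact h2d)
  obtain ⟨R, hR⟩ : ∃ R : ℂ[X], R =
      ∏ k ∈ (Sing B).filter fun k => q.eval (a k) ≠ β k * p.eval (a k), (X - C (a k)) := ⟨_, rfl⟩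
  rw [← hR] at hbas
  have hRne : ∀ k ∈ KK B, R.eval (a k) ≠ 0 := by
    intro k hk
    rw [hR]
    apply HO_prod_ne ha
    intro h1
    rw [Finset.mem_filter, mem_Sing] at h1
    unfold KK at hk
    rw [Finset.mem_filter] at hk
    omega
  have hWne : ∀ k ∈ KK B, (R * p).eval (a k) * Q2.eval (a k) - P2.eval (a k) * (R * q).eval (a k) ≠
      0 := by
    intro k hk
    have h1 := congrArg (Polynomial.eval (a k)) hbas.det
    rw [eval_sub, eval_mul (p := R * p) (q := Q2), eval_mul (p := P2) (q := R * q)] at h1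
    rw [h1]
    apply HO_prod_ne ha
    intro h2
    rw [mem_Sing] at h2
    unfold KK at hk
    rw [Finset.mem_filter] at hk
    omega
  -- the vectors
  have hc : ∀ k, ∃ c : Fin 3 → ℂ, k ∈ KK B → c ≠ 0 ∧
      (∀ b ∈ B k, ev2 (R * p) (R * q) P2 Q2 c (a k) b = 0) ∧ c 1 ^ 2 ≠ 4 * c 0 * c 2 ∧
      (c 2 = 0 ↔ Hit a B p q k) := by
    intro k
    by_cases hk : k ∈ KK B
    · have hk2 : (B k).card = 2 := by
        unfold KK at hk
        rw [Finset.mem_filter] at hk
        exact hk.2
      obtain ⟨b, b', hbb, hBk⟩ := Finset.card_eq_two.1 hk2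
      obtain ⟨h1, c, hc0, hc1, hc2⟩ := hCK (R * p) (R * q) P2 Q2 (a k) b b' hbb (hWne k hk)
      obtain ⟨-, h3, h4⟩ := h1 c hc0 hc1 hc2
      refine ⟨c, fun _ => ⟨hc0, ?_, h3, ?_⟩⟩
      · intro b₀ hb₀
        rw [hBk, Finset.mem_insert, Finset.mem_singleton] at hb₀
        rcases hb₀ with rfl | rfl
        · exact hc1
        · exact hc2
      · rw [h4, Hit, hBk]
        have h5 : ∀ b₀ : ℂ, (R * q).eval (a k) = b₀ * (R * p).eval (a k) ↔
            q.eval (a k) = b₀ * p.eval (a k) := by
          intro b₀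
          rw [eval_mul, eval_mul]
          constructor
          · intro h6
            apply mul_left_cancel₀ (hRne k hk)
            rw [h6]
            ring
          · intro h6
            rw [h6]
            ring
        rw [h5, h5]
        simp
    · exact ⟨0, fun h => absurd h hk⟩
  choose c hc using hc
  have hWN' := hWN h a β B d (R * p) (R * q) P2 Q2 c ha hB hβ hbas
    fun k hk => ⟨(hc k hk).1, (hc k hk).2.1⟩
  obtain ⟨w, t, hwt, htK, hw, htσ, hfin⟩ := hT3 (Fin h) a c (KK B) ((Sing B).card - 2 * d) ha.injOn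
    fun k hk => (hc k hk).2.2.1
  have hσ : ((KK B).filter fun k => c k 2 = 0).card = sig n S0 := by
    unfold sig
    congr 1
    ext k
    rw [Finset.mem_filter, Finset.mem_filter]
    constructor
    · rintro ⟨h1, h2⟩
      refine ⟨(hhit k).2 ((hc k h1).2.2.2.1 h2), ?_⟩
      rw [hn]
      unfold KK at h1
      rw [Finset.mem_filter] at h1
      exact h1.2
    · rintro ⟨h1, h2⟩
      have h3 : k ∈ KK B := by
        unfold KK
        rw [Finset.mem_filter]
        rw [hn] at h2
        exact ⟨Finset.mem_univ _, h2⟩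
      exact ⟨h3, (hc k h3).2.2.2.2 ((hhit k).1 h1)⟩
  rw [hσ, ← hell, ← hkap] at htσ
  rw [← hell] at hw hfin hWN'
  rw [← hkap] at htK hfin hWN'
  -- the set S
  obtain ⟨S, hS1, hS2, hS3⟩ : ∃ S : Finset (Fin h), (∀ k, n k ≠ 2 → (k ∈ S0 ↔ k ∈ S)) ∧
      sig n S = t ∧ (t = sig n S0 → S = S0) := by
    by_cases htt : t = sig n S0
    · exact ⟨S0, fun _ _ => Iff.rfl, htt.symm, fun _ => rfl⟩
    · obtain ⟨S, h1, h2⟩ := HO_S n S0 t (by
        have : kap n = (univ.filter fun k => n k = 2).card := rfl
        rw [← this]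
        exact htK)
      exact ⟨S, h1, h2, fun h => absurd h htt⟩
  have hdS : dee n S e = d := by
    rw [hd]
    unfold dee
    congr 2
    ext k
    simp only [Finset.mem_filter, Finset.mem_univ, true_and]
    constructor
    · rintro ⟨h1, h2⟩
      exact ⟨fun h3 => h1 ((hS1 k (by omega)).1 h3), h2⟩
    · rintro ⟨h1, h2⟩
      exact ⟨fun h3 => h1 ((hS1 k (by omega)).2 h3), h2⟩
  have hS1c : (S.filter fun k => n k = 1) = S0.filter fun k => n k = 1 := by
    ext k
    simp only [Finset.mem_filter]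
    constructor
    · rintro ⟨h1, h2⟩
      exact ⟨(hS1 k (by omega)).2 h1, h2⟩
    · rintro ⟨h1, h2⟩
      exact ⟨(hS1 k (by omega)).1 h1, h2⟩
  have hyou : you n = (KK B).card + (TT B).card := by
    unfold you KK TT
    rw [hn, ← Finset.card_union_of_disjoint]
    · congr 1
      ext k
      simp only [Finset.mem_filter, Finset.mem_univ, true_and, Finset.mem_union]
      omega
    · rw [Finset.disjoint_filter]
      intro k _ h1 h2
      omega
  refine ⟨h, n, S, e, w, ⟨⟨?_, ?_, ?_⟩, ?_, ?_⟩, ?_⟩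
  · intro k
    rw [hn]
    exact hB k
  · rw [hn]
    exact hsum
  · rw [hS1c, ← hSHc]
    have : (univ.filter fun k => n k = 1).card = (Sing B).card := hell
    rw [this]
    exact href
  · rw [hS2]
    exact hwt
  · rw [hS2, hdS]
    rcases hw with hw | hw
    · exact Or.inl hw
    · right
      omega
  · intro i j hij
    rw [DV_eq_WW hZ i j]
    unfold Psi
    by_cases hj : j = 2
    · rw [if_pos hj]
      subst hj
      rw [hWN' i, hfin]
      unfold third
      rw [hdS, hS2, hyou, ← hkap]
      omega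
    · rw [if_neg hj]
      have hij' : j ≤ 1 ∨ ∑ k, min 2 (n k) ≤ i + 1 := by
        rcases hij with h1 | h1
        · left
          omega
        · exact Or.inr h1
      rw [hmain i j (by
        rcases hij' with h1 | h1
        · exact Or.inl h1
        · right
          rw [hn] at h1
          exact h1)]
      by_cases htt : t = sig n S0
      · rw [hS3 htt]
      · have h3 := htσ.resolve_left htt
        exact hPH h n S0 S e i j (by
          intro k
          rw [hn]
          exact hB k) hS1 (by rw [← hd]; exact h2d) (by rw [← hd]; exact h3.2)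
          (by rw [← hd, hS2]; exact h3.1) hj hij'

end Pool.Agent.helper87.TR
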